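import Pool.Agent.PW.StmtsA

/-!
# Squad PW, row FGM: monotonicity, stability under the derivations, trading variables
-/

set_option autoImplicit false

noncomputable section

namespace Pool.Agent.PW.H48

open MvPolynomial
open Pool.Agent.RS (FF io)

variable {E : Type} [Field E]

theorem fg_mono (c : ℕ) : ∀ (G G' : Finset ℕ) (f : FF E), G ⊆ G' → FG c G f → FG c G' f := by
  induction c with
  | zero => exact fun G G' f h hf i hi => hf i fun h' => hi (h h')
  | succ c ih =>
    exact fun G G' f h hf i hi =>
      ih _ _ _ (Finset.insert_subset_insert i h) (hf i fun h' => hi (h h'))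

theorem fg_succ (c : ℕ) : ∀ (G : Finset ℕ) (f : FF E), FG c G f → FG (c + 1) G f := by
  induction c with
  | zero =>
    intro G f hf i hi j _
    rw [hf i hi, map_zero]
  | succ c ih => exact fun G f hf i hi => ih _ _ (hf i hi)

theorem fg_le {c c' : ℕ} (h : c ≤ c') (G : Finset ℕ) (f : FF E) (hf : FG c G f) :
    FG c' G f := by
  induction h with
  | refl => exact hf
  | step _ ih => exact fg_succ _ G f ih

theorem fg_dd (hc : ∀ (i j : ℕ) (w : FF E), dd i (dd j w) = dd j (dd i w)) (c : ℕ) :
    ∀ (G : Finset ℕ) (f : FF E) (j : ℕ), FG c G f → FG c G (dd j f) := by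
  induction c with
  | zero =>
    intro G f j hf i hi
    rw [hc, hf i hi, map_zero]
  | succ c ih =>
    intro G f j hf i hi
    rw [hc]
    exact ih _ _ _ (hf i hi)

theorem fg_ins (hc : ∀ (i j : ℕ) (w : FF E), dd i (dd j w) = dd j (dd i w)) (c : ℕ) :
    ∀ (g : ℕ) (G : Finset ℕ) (f : FF E), FG c (insert g G) f → FG (c + 1) G f := by
  induction c with
  | zero =>
    intro g G f hf i hi
    by_cases h : i = g
    · rw [h]
      exact fg_dd hc 0 _ _ _ hf
    · rw [hf i (fun h' => (Finset.mem_insert.1 h').elim h hi)]
      intro j _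
      exact map_zero _
  | succ c ih =>
    intro g G f hf i hi
    by_cases h : i = g
    · rw [h]
      exact fg_dd hc (c + 1) _ _ _ hf
    · have h1 := hf i (fun h' => (Finset.mem_insert.1 h').elim h hi)
      rw [Finset.insert_comm] at h1
      exact ih g (insert i G) _ h1

theorem fgm (hd : DerStmt) : FgmStmt := by
  intro E _
  obtain ⟨-, hc, -⟩ := hd E
  refine ⟨fg_mono, fun c c' G f h hf => fg_le h G f hf, fg_dd hc,
    fun c g G f hf => fg_ins hc c g G f hf, ?_⟩
  intro c G
  induction G using Finset.induction_on generalizing c with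
  | empty =>
    intro f hf
    rw [Finset.card_empty, add_zero]
    exact hf
  | insert a G ha ih =>
    intro f hf
    have h1 := ih (c + 1) f (fg_ins hc c a G f hf)
    rw [Finset.card_insert_of_notMem ha, ← add_assoc, add_right_comm]
    exact h1

end Pool.Agent.PW.H48
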